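import Pool.Agent.Lib.MP_144d21_co.PSI.Iface

/-!
# MP_144d21_co, project XU3, part PSI, module KDIM
-/

set_option autoImplicit false
set_option linter.unusedSectionVars false

namespace Pool.Agent.Xu.H98

open Finset

variable {V : Type} [Fintype V] [DecidableEq V] {G : SimpleGraph V} {S : Finset V} {c : V → ℕ}

theorem prs_spec {s : ℕ × ℕ} (h : s ∈ prs) : s.1 < s.2 ∧ s.2 < 4 := by
  unfold prs at h
  simp only [mem_insert, mem_singleton] at h
  rcases h with rfl | rfl | rfl | rfl | rfl | rfl <;> decide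

theorem mk_prs {i j : ℕ} (h1 : i < j) (h2 : j < 4) : (i, j) ∈ prs := by
  unfold prs
  interval_cases j <;> interval_cases i <;> simp

theorem exists_comp (i j : ℕ) (v : V) (hv : v ∈ S) (hc : c v = i ∨ c v = j) :
    ∃ D, IsComp G S c i j D ∧ v ∈ D := by
  classical
  let r : V → V → Prop := fun u w => G.Adj u w ∧ w ∈ S ∧ (c w = i ∨ c w = j)
  let D : Finset V := univ.filter fun w => Relation.ReflTransGen r v w
  have key : ∀ w, Relation.ReflTransGen r v w → w ∈ S ∧ (c w = i ∨ c w = j) := by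
    intro w h
    induction h with
    | refl => exact ⟨hv, hc⟩
    | tail _ h _ => exact ⟨h.2.1, h.2.2⟩
  have hvD : v ∈ D := mem_filter.2 ⟨mem_univ _, Relation.ReflTransGen.refl⟩
  refine ⟨D, ⟨?_, ?_, ⟨⟨v, hvD⟩, ?_⟩, ?_⟩, hvD⟩
  · intro w hw
    exact (key w (mem_filter.1 hw).2).1
  · intro w hw
    exact (key w (mem_filter.1 hw).2).2
  · intro A hA hne hneq
    by_contra hcon
    apply hneq
    have hcon' : ∀ a ∈ A, ∀ b ∈ D, b ∉ A → ¬ G.Adj a b := fun a ha b hb hbA hab =>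
      hcon ⟨a, ha, b, hb, hbA, hab⟩
    have step : ∀ w, Relation.ReflTransGen r v w → (v ∈ A ↔ w ∈ A) := by
      intro w h
      induction h with
      | refl => exact Iff.rfl
      | @tail b d h1 h2 ih =>
        rw [ih]
        have hb : b ∈ D := mem_filter.2 ⟨mem_univ _, h1⟩
        have hd : d ∈ D := mem_filter.2 ⟨mem_univ _, h1.tail h2⟩
        constructor
        · intro hbA
          by_contra hdA
          exact hcon' b hbA d hd hdA h2.1
        · intro hdA
          by_contra hbA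
          exact hcon' d hdA b hb hbA h2.1.symm
    obtain ⟨a0, ha0⟩ := hne
    have hvA : v ∈ A := (step a0 (mem_filter.1 (hA ha0)).2).2 ha0
    exact Finset.Subset.antisymm hA fun w hw => (step w (mem_filter.1 hw).2).1 hvA
  · intro u hu w hw hcw hadj
    exact mem_filter.2 ⟨mem_univ _, (mem_filter.1 hu).2.tail ⟨hadj, hw, hcw⟩⟩

theorem comp_sub {i j : ℕ} {D D' : Finset V} (h : IsComp G S c i j D)
    (h' : IsComp G S c i j D') {v : V} (hv : v ∈ D) (hv' : v ∈ D') : D ⊆ D' := by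
  by_contra hcon
  have hne : D ∩ D' ≠ D := fun e => hcon (Finset.inter_eq_left.1 e)
  obtain ⟨a, ha, b, hb, hbA, hadj⟩ :=
    h.conn.2 (D ∩ D') inter_subset_left ⟨v, mem_inter.2 ⟨hv, hv'⟩⟩ hne
  apply hbA
  rw [mem_inter]
  exact ⟨hb, h'.closed a (mem_inter.1 ha).2 b (h.sub hb) (h.col b hb) hadj⟩

theorem comp_unique {i j : ℕ} {D D' : Finset V} (h : IsComp G S c i j D)
    (h' : IsComp G S c i j D') {v : V} (hv : v ∈ D) (hv' : v ∈ D') : D = D' :=
  Finset.Subset.antisymm (comp_sub h h' hv hv') (comp_sub h' h hv' hv)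

/-- `v` lies in the component `x`, which belongs to the pair `{c v, b}` -/
def Mt (x : KC G S c) (v : V) (b : Fin 4) : Prop :=
  v ∈ x.1.2 ∧ ((c v = x.1.1.1 ∧ (b : ℕ) = x.1.1.2) ∨ (c v = x.1.1.2 ∧ (b : ℕ) = x.1.1.1))

theorem mt_unique {x y : KC G S c} {v : V} {b : Fin 4} (hx : Mt x v b) (hy : Mt y v b) :
    x = y := by
  obtain ⟨hxv, hx⟩ := hx
  obtain ⟨hyv, hy⟩ := hy
  have h1 := prs_spec x.2.1
  have h2 := prs_spec y.2.1
  have e1 : x.1.1.1 = y.1.1.1 := by omega
  have e2 : x.1.1.2 = y.1.1.2 := by omega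
  have hcx := x.2.2
  have hcy := y.2.2
  rw [← e1, ← e2] at hcy
  have e3 : x.1.2 = y.1.2 := comp_unique hcx hcy hxv hyv
  exact Subtype.ext (Prod.ext (Prod.ext e1 e2) e3)

theorem mt_exists (hc : c ∈ cols G S 4) {v : V} (hv : v ∈ S) {b : Fin 4} (hb : c v ≠ b) :
    ∃ x : KC G S c, Mt x v b := by
  have h4 : c v < 4 := (mem_cols.1 hc).1 v hv
  have hb4 := b.2
  rcases Nat.lt_or_ge (c v) b with h | h
  · obtain ⟨D, hD, hvD⟩ := exists_comp (G := G) (S := S) (c := c) (c v) b v hv (Or.inl rfl)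
    exact ⟨⟨((c v, (b : ℕ)), D), mk_prs h hb4, hD⟩, hvD, Or.inl ⟨rfl, rfl⟩⟩
  · have h' : (b : ℕ) < c v := lt_of_le_of_ne h fun e => hb e.symm
    obtain ⟨D, hD, hvD⟩ := exists_comp (G := G) (S := S) (c := c) b (c v) v hv (Or.inr rfl)
    exact ⟨⟨(((b : ℕ), c v), D), mk_prs h' h4, hD⟩, hvD, Or.inr ⟨rfl, rfl⟩⟩

theorem wv_sq {x : KC G S c} {v : V} (hv : v ∈ x.1.2) : wv ℝ x v * wv ℝ x v = 1 := by
  unfold wv
  rw [if_pos hv]
  split <;> norm_num

theorem wv_ne {x : KC G S c} {v : V} (hv : v ∈ x.1.2) : wv ℝ x v ≠ 0 := by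
  intro h
  have := wv_sq hv
  rw [h, mul_zero] at this
  exact zero_ne_one this

/-- every vertex of a component matches exactly one second colour -/
theorem exists_oth {x : KC G S c} {v : V} (hv : v ∈ x.1.2) : ∃ b : Fin 4, Mt x v b := by
  have h1 := prs_spec x.2.1
  rcases x.2.2.col v hv with h | h
  · exact ⟨⟨x.1.1.2, h1.2⟩, hv, Or.inl ⟨h, rfl⟩⟩
  · exact ⟨⟨x.1.1.1, h1.1.trans h1.2⟩, hv, Or.inr ⟨h, rfl⟩⟩

theorem oth_unique {x : KC G S c} {v : V} {b b' : Fin 4} (h : Mt x v b) (h' : Mt x v b') :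
    b = b' := by
  have h1 := prs_spec x.2.1
  obtain ⟨-, h⟩ := h
  obtain ⟨-, h'⟩ := h'
  apply Fin.ext
  omega

open Classical in
/-- the motion with the parameters `l` -/
noncomputable def Phi (G : SimpleGraph V) (S : Finset V) (c : V → ℕ) :
    (KC G S c → ℝ) →ₗ[ℝ] (V → Fin 4 → ℝ) where
  toFun l := fun v b => ∑ x : KC G S c, if Mt x v b then l x * wv ℝ x v else 0
  map_add' l l' := by
    funext v b
    simp only [Pi.add_apply]
    rw [← sum_add_distrib]
    refine sum_congr rfl fun x _ => ?_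
    split
    · ring
    · rw [add_zero]
  map_smul' r l := by
    funext v b
    simp only [Pi.smul_apply, smul_eq_mul, RingHom.id_apply]
    rw [mul_sum]
    refine sum_congr rfl fun x _ => ?_
    split
    · ring
    · rw [mul_zero]

open Classical in
theorem Phi_apply (l : KC G S c → ℝ) (v : V) (b : Fin 4) :
    Phi G S c l v b = ∑ x : KC G S c, if Mt x v b then l x * wv ℝ x v else 0 := rfl

theorem Phi_of_mt {l : KC G S c → ℝ} {x : KC G S c} {v : V} {b : Fin 4} (h : Mt x v b) :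
    Phi G S c l v b = l x * wv ℝ x v := by
  classical
  rw [Phi_apply, sum_eq_single x]
  · rw [if_pos h]
  · intro y _ hy
    rw [if_neg fun h' => hy (mt_unique h' h)]
  · intro h'
    exact absurd (mem_univ x) h'

theorem Phi_zero {l : KC G S c → ℝ} {v : V} {b : Fin 4} (h : ∀ x : KC G S c, ¬ Mt x v b) :
    Phi G S c l v b = 0 := by
  classical
  rw [Phi_apply]
  exact sum_eq_zero fun x _ => if_neg (h x)

theorem Phi_inj : Function.Injective (Phi G S c) := by
  rw [← LinearMap.ker_eq_bot, LinearMap.ker_eq_bot']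
  intro l hl
  funext x
  obtain ⟨v, hv⟩ := x.2.2.conn.1
  obtain ⟨b, hb⟩ := exists_oth hv
  have := Phi_of_mt (l := l) hb
  rw [hl] at this
  rcases mul_eq_zero.1 this.symm with h | h
  · exact h
  · exact absurd h (wv_ne hv)

theorem Phi_mem (hc : c ∈ cols G S 4) (l : KC G S c → ℝ) : Phi G S c l ∈ M3 ℝ G S c := by
  classical
  refine ⟨fun v hv b => ?_, fun v b hb => ?_, fun u hu v hv hadj a b ha hb => ?_⟩
  · exact Phi_zero fun x hx => hv (x.2.2.sub hx.1)
  · refine Phi_zero fun x hx => ?_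
    have h1 := prs_spec x.2.1
    obtain ⟨-, hx⟩ := hx
    omega
  · have hne : c u ≠ c v := (mem_cols.1 hc).2.2 u hu v hv hadj
    obtain ⟨x, hx⟩ := mt_exists hc hu (b := b) (by rw [← hb]; exact hne)
    have hxv : Mt x v a := by
      obtain ⟨hxu, hx⟩ := hx
      refine ⟨x.2.2.closed u hxu v hv (by omega) hadj, by omega⟩
    rw [Phi_of_mt hx, Phi_of_mt hxv]
    have h1 := prs_spec x.2.1
    have hw : wv ℝ x u + wv ℝ x v = 0 := by
      unfold wv
      rw [if_pos hx.1, if_pos hxv.1]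
      obtain ⟨-, hx⟩ := hx
      rcases hx with hx | hx
      · rw [if_pos hx.1, if_neg (by omega)]
        norm_num
      · rw [if_neg (by omega), if_pos (by omega)]
        norm_num
    linear_combination l x * hw

/-- the parameters of a motion -/
theorem exists_par (hc : c ∈ cols G S 4) {y : V → Fin 4 → ℝ} (hy : y ∈ M3 ℝ G S c)
    (x : KC G S c) : ∃ r : ℝ, ∀ v b, Mt x v b → y v b = r * wv ℝ x v := by
  classical
  obtain ⟨h1, h2, h3⟩ := hy
  obtain ⟨v0, hv0⟩ := x.2.2.conn.1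
  obtain ⟨b0, hb0⟩ := exists_oth hv0
  refine ⟨y v0 b0 * wv ℝ x v0, fun v b hvb => ?_⟩
  let A : Finset V := x.1.2.filter fun v => ∀ b, Mt x v b → y v b = y v0 b0 * wv ℝ x v0 * wv ℝ x v
  have hA0 : v0 ∈ A := by
    refine mem_filter.2 ⟨hv0, fun b hb => ?_⟩
    rw [oth_unique hb hb0, mul_assoc, wv_sq hv0, mul_one]
  have hA : A = x.1.2 := by
    by_contra hne
    obtain ⟨p, hp, q, hq, hqA, hadj⟩ := x.2.2.conn.2 A (filter_subset _ _) ⟨v0, hA0⟩ hne
    apply hqA
    have hpx : p ∈ x.1.2 := (mem_filter.1 hp).1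
    refine mem_filter.2 ⟨hq, fun b hb => ?_⟩
    have hpS := x.2.2.sub hpx
    have hqS := x.2.2.sub hq
    have hcpq : c p ≠ c q := (mem_cols.1 hc).2.2 p hpS q hqS hadj
    have hp4 : c p < 4 := (mem_cols.1 hc).1 p hpS
    have hq4 : c q < 4 := (mem_cols.1 hc).1 q hqS
    have hs := prs_spec x.2.1
    have hcp := x.2.2.col p hpx
    have hcq := x.2.2.col q hq
    have hMq : Mt x q ⟨c p, hp4⟩ := ⟨hq, by simp only; omega⟩
    have hMp : Mt x p ⟨c q, hq4⟩ := ⟨hpx, by simp only; omega⟩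
    have e := h3 p hpS q hqS hadj ⟨c p, hp4⟩ ⟨c q, hq4⟩ rfl rfl
    rw [oth_unique hb hMq]
    have ep := (mem_filter.1 hp).2 _ hMp
    have hw : wv ℝ x p + wv ℝ x q = 0 := by
      unfold wv
      rw [if_pos hpx, if_pos hq]
      rcases hcp with h | h
      · rw [if_pos h, if_neg (by omega)]
        norm_num
      · rw [if_neg (by omega), if_pos (by omega)]
        norm_num
    linear_combination e - ep - y v0 b0 * wv ℝ x v0 * hw
  have hv : v ∈ A := by
    rw [hA]
    exact hvb.1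
  exact (mem_filter.1 hv).2 b hvb

theorem Phi_range (hc : c ∈ cols G S 4) : LinearMap.range (Phi G S c) = M3 ℝ G S c := by
  apply le_antisymm
  · rintro _ ⟨l, rfl⟩
    exact Phi_mem hc l
  · intro y hy
    choose l hl using exists_par hc hy
    refine ⟨l, ?_⟩
    funext v b
    by_cases hv : v ∈ S
    · by_cases hb : c v = b
      · rw [(Phi_mem hc l).2.1 v b hb, hy.2.1 v b hb]
      · obtain ⟨x, hx⟩ := mt_exists hc hv hb
        rw [Phi_of_mt hx, hl x v b hx]
    · rw [(Phi_mem hc l).1 v hv b, hy.1 v hv b]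

theorem Phi_sum (l : KC G S c → ℝ) (v : V) :
    ∑ b, Phi G S c l v b = ∑ x : KC G S c, l x * wv ℝ x v := by
  classical
  simp only [Phi_apply]
  rw [sum_comm]
  refine sum_congr rfl fun x _ => ?_
  by_cases hv : v ∈ x.1.2
  · obtain ⟨b, hb⟩ := exists_oth hv
    rw [sum_eq_single b]
    · rw [if_pos hb]
    · intro b' _ hb'
      rw [if_neg fun h => hb' (oth_unique h hb)]
    · intro h
      exact absurd (mem_univ b) h
  · have : wv ℝ x v = 0 := by
      unfold wv
      rw [if_neg hv]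
    rw [this, mul_zero]
    exact sum_eq_zero fun b _ => if_neg fun h => hv h.1

theorem Phi_map (hc : c ∈ cols G S 4) :
    (Rel (fun x : KC G S c => wv ℝ x) ∅).map (Phi G S c) = M2 ℝ G S c := by
  apply le_antisymm
  · rintro _ ⟨l, hl, rfl⟩
    exact ⟨Phi_mem hc l, fun v => by rw [Phi_sum]; exact hl.2 v⟩
  · rintro y ⟨hy, hy'⟩
    rw [← Phi_range hc] at hy
    obtain ⟨l, rfl⟩ := hy
    refine ⟨l, ⟨fun D hD => absurd hD (Finset.notMem_empty D), fun v => ?_⟩, rfl⟩
    rw [← Phi_sum]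
    exact hy' v

theorem kdim : KdimS := by
  intro V _ _ G S c hc
  constructor
  · unfold D3
    rw [← Phi_range hc, LinearMap.finrank_range_of_inj Phi_inj, Module.finrank_pi]
  · unfold D2
    rw [← Phi_map hc]
    exact (Submodule.equivMapOfInjective (Phi G S c) Phi_inj _).finrank_eq.symm

end Pool.Agent.Xu.H98
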